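import Mathlib
import Pool.Agent.Helper74.FA.TETC
import Pool.Agent.Helper9.Asym

/-!
# GAIN: near the ends of the interval of `n` the gain of volume is large
-/

namespace Pool.Agent.Helper9.FA

open Finset MeasureTheory Pool.Agent.Helper9.Kashaev

private lemma gain_small {M s : ℝ} (hs0 : 0 < s) (h1 : s ≤ Real.exp (-M) / 2)
    (h2 : s ≤ Real.pi / 3) : M * s ≤ lobachevsky s := by
  have h3 : ∫ t in (0 : ℝ)..s, Real.log |2 * Real.sin t| ≤ ∫ t in (0 : ℝ)..s, (-M) := by
    apply intervalIntegral.integral_mono_on_of_le_Ioo hs0.le (integrable_h _ _)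
      intervalIntegrable_const
    intro u hu
    have hpi := Real.pi_pos
    have h4 : 0 < Real.sin u := Real.sin_pos_of_pos_of_lt_pi hu.1 (by linarith [hu.2])
    have h5 : Real.sin u < u := Real.sin_lt hu.1
    rw [abs_of_pos (by linarith), Real.log_le_iff_le_exp (by linarith)]
    linarith [hu.2]
  rw [intervalIntegral.integral_const, smul_eq_mul] at h3
  unfold lobachevsky
  linarith

private lemma gain_half {s : ℝ} (hs0 : 0 < s) (h2 : s ≤ Real.pi / 3) :
    lobachevsky (Real.pi / 2) ≤ lobachevsky (Real.pi / 2 - s) := by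
  rw [HH_loba, HH_loba]
  have h3 : HH (Real.pi / 2) - HH (Real.pi / 2 - s) =
      ∫ t in (Real.pi / 2 - s)..(Real.pi / 2), Real.log |2 * Real.sin t| := by
    unfold HH
    rw [intervalIntegral.integral_interval_sub_left (integrable_h _ _) (integrable_h _ _)]
  have h4 : 0 ≤ ∫ t in (Real.pi / 2 - s)..(Real.pi / 2), Real.log |2 * Real.sin t| := by
    apply intervalIntegral.integral_nonneg (by linarith)
    intro u hu
    have hpi := Real.pi_pos
    have h5 : Real.sin (Real.pi / 6) ≤ Real.sin u :=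
      Real.sin_le_sin_of_le_of_le_pi_div_two (by linarith) hu.2 (by linarith [hu.1])
    rw [Real.sin_pi_div_six] at h5
    rw [abs_of_pos (by linarith)]
    exact Real.log_nonneg (by linarith)
  linarith

private lemma gain_zero : lobachevsky 0 = 0 := by simp [lobachevsky]

private lemma gain_core (M : ℝ) : ∃ s0 : ℝ, 0 < s0 ∧ ∀ s : ℝ, 0 < s → s < s0 →
    lobachevsky 0 + lobachevsky (Real.pi / 2) + M * s ≤
      lobachevsky s + lobachevsky (Real.pi / 2 - s) := by
  refine ⟨min (Real.exp (-M) / 2) (Real.pi / 3),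
    lt_min (by positivity) (by have := Real.pi_pos; positivity), ?_⟩
  intro s hs hs2
  have h1 : s ≤ Real.exp (-M) / 2 := hs2.le.trans (min_le_left _ _)
  have h2 : s ≤ Real.pi / 3 := hs2.le.trans (min_le_right _ _)
  have h3 := gain_small hs h1 h2
  have h4 := gain_half hs h2
  rw [gain_zero]
  linarith

/-- the part of the volume at the four corners -/
private noncomputable def gainB (c : Cor ℝ) : ℝ :=
  2 * (tet c.uL (Real.pi - c.n - c.uL) + tet c.uR (Real.pi - c.n - c.uR) +
    tet c.uB (c.n - c.uB) + tet c.uT (c.n - c.uT))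

private lemma gain_vol (c : Cor ℝ) : c.vol = 4 * (lobachevsky c.n + lobachevsky (Real.pi / 2 - c.n)
    + lobachevsky (Real.pi / 2)) + gainB c := by
  unfold Cor.vol gainB
  have h : tet c.n (Real.pi / 2 - c.n) = lobachevsky c.n + lobachevsky (Real.pi / 2 - c.n)
    + lobachevsky (Real.pi / 2) := by
    unfold tet
    rw [show Real.pi - c.n - (Real.pi / 2 - c.n) = Real.pi / 2 by ring]
  rw [h]
  ring

private lemma gainB_concave {c d : Cor ℝ} (hc : c.Ok) (hd : d.Ok) {t : ℝ} (h0 : 0 ≤ t)
    (h1 : t ≤ 1) : (1 - t) * gainB c + t * gainB d ≤ gainB (Cor.mix t c d) := by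
  have hpi := Real.pi_pos
  have hcn : 0 ≤ c.n := hc.B0.trans hc.Bn
  have hdn : 0 ≤ d.n := hd.B0.trans hd.Bn
  have hc2 := hc.n2
  have hd2 := hd.n2
  have eL := h74_tet_concave (a := c.uL) (b := Real.pi - c.n - c.uL) (a' := d.uL)
    (b' := Real.pi - d.n - d.uL) (t := t) hc.L0 (by linarith [hc.Ln]) (by linarith) hd.L0
    (by linarith [hd.Ln]) (by linarith) h0 h1
  have eR := h74_tet_concave (a := c.uR) (b := Real.pi - c.n - c.uR) (a' := d.uR)
    (b' := Real.pi - d.n - d.uR) (t := t) hc.R0 (by linarith [hc.Rn]) (by linarith) hd.R0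
    (by linarith [hd.Rn]) (by linarith) h0 h1
  have eB := h74_tet_concave (a := c.uB) (b := c.n - c.uB) (a' := d.uB)
    (b' := d.n - d.uB) (t := t) hc.B0 (by linarith [hc.Bn]) (by linarith) hd.B0
    (by linarith [hd.Bn]) (by linarith) h0 h1
  have eT := h74_tet_concave (a := c.uT) (b := c.n - c.uT) (a' := d.uT)
    (b' := d.n - d.uT) (t := t) hc.T0 (by linarith [hc.Tn]) (by linarith) hd.T0
    (by linarith [hd.Tn]) (by linarith) h0 h1
  have r1 : (1 - t) * (Real.pi - c.n - c.uL) + t * (Real.pi - d.n - d.uL) =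
      Real.pi - ((1 - t) * c.n + t * d.n) - ((1 - t) * c.uL + t * d.uL) := by ring
  have r2 : (1 - t) * (Real.pi - c.n - c.uR) + t * (Real.pi - d.n - d.uR) =
      Real.pi - ((1 - t) * c.n + t * d.n) - ((1 - t) * c.uR + t * d.uR) := by ring
  have r3 : (1 - t) * (c.n - c.uB) + t * (d.n - d.uB) =
      ((1 - t) * c.n + t * d.n) - ((1 - t) * c.uB + t * d.uB) := by ring
  have r4 : (1 - t) * (c.n - c.uT) + t * (d.n - d.uT) =
      ((1 - t) * c.n + t * d.n) - ((1 - t) * c.uT + t * d.uT) := by ring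
  rw [r1] at eL
  rw [r2] at eR
  rw [r3] at eB
  rw [r4] at eT
  unfold gainB Cor.mix
  simp only
  linarith

theorem Cor.vol_gain {c d : Cor ℝ} (hc : c.Ok) (hd : d.Ok) (h : c.n = 0 ∨ 2 * c.n = Real.pi)
    (h0 : 0 < d.n) (h1 : 2 * d.n < Real.pi) (K : ℝ) : ∃ t0 : ℝ, 0 < t0 ∧ ∀ t : ℝ, 0 < t → t < t0 →
      c.vol + K * t ≤ (Cor.mix t c d).vol := by
  obtain ⟨w, hw, hm⟩ : ∃ w : ℝ, 0 < w ∧ ∀ t : ℝ,
      (lobachevsky c.n + lobachevsky (Real.pi / 2 - c.n) =
        lobachevsky 0 + lobachevsky (Real.pi / 2)) ∧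
      (lobachevsky (Cor.mix t c d).n + lobachevsky (Real.pi / 2 - (Cor.mix t c d).n) =
        lobachevsky (t * w) + lobachevsky (Real.pi / 2 - t * w)) := by
    rcases h with h | h
    · refine ⟨d.n, h0, fun t => ⟨?_, ?_⟩⟩
      · rw [h, sub_zero]
      · have e : (Cor.mix t c d).n = t * d.n := by
          unfold Cor.mix
          simp only
          rw [h]
          ring
        rw [e]
    · have h' : c.n = Real.pi / 2 := by linarith
      refine ⟨Real.pi / 2 - d.n, by linarith, fun t => ⟨?_, ?_⟩⟩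
      · rw [h', sub_self, add_comm]
      · have e : (Cor.mix t c d).n = Real.pi / 2 - t * (Real.pi / 2 - d.n) := by
          unfold Cor.mix
          simp only
          rw [h']
          ring
        rw [e, sub_sub_cancel, add_comm]
  obtain ⟨s0, hs0, hs⟩ := gain_core ((|K| + |gainB d - gainB c|) / w)
  refine ⟨min (s0 / w) 1, lt_min (by positivity) one_pos, ?_⟩
  intro t ht htt
  have ht1 : t ≤ 1 := htt.le.trans (min_le_right _ _)
  have ht2 : t * w < s0 := by
    have := htt.trans_le (min_le_left _ _)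
    rwa [lt_div_iff₀ hw] at this
  have h2 := hs (t * w) (by positivity) ht2
  have h3 : (|K| + |gainB d - gainB c|) / w * (t * w) = (|K| + |gainB d - gainB c|) * t := by
    field_simp
  rw [h3] at h2
  obtain ⟨h4, h5⟩ := hm t
  have h6 := gainB_concave hc hd ht.le ht1
  rw [gain_vol c, gain_vol (Cor.mix t c d), h4, h5]
  have h7 : K * t ≤ |K| * t := mul_le_mul_of_nonneg_right (le_abs_self K) ht.le
  have h8 : -(|gainB d - gainB c| * t) ≤ (gainB d - gainB c) * t := by
    have := mul_le_mul_of_nonneg_right (neg_abs_le (gainB d - gainB c)) ht.le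
    linarith
  have h9 : 0 ≤ |K| * t := by positivity
  have h10 : 0 ≤ |gainB d - gainB c| * t := by positivity
  nlinarith

end Pool.Agent.Helper9.FA
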