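import Pool.Agent.Helper36.FA.GAIN

/-!
# INTER: the maximum is in the interior, and other angle assignments have smaller volume
-/

namespace Pool.Agent.Helper9.FA

open Finset Pool.Agent.Helper9.Kashaev

private lemma inter_sum {cs ds : List (Cor ℝ)} (hl : cs.length = ds.length) (F : Cor ℝ → Cor ℝ → Cor ℝ)
    (G : Cor ℝ → Cor ℝ → ℝ) (h : ∀ p ∈ cs.zip ds, p.1.vol + G p.1 p.2 ≤ (F p.1 p.2).vol) :
    vol cs + (List.zipWith G cs ds).sum ≤ vol (List.zipWith F cs ds) := by
  induction cs generalizing ds with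
  | nil =>
    cases ds with
    | nil => simp [vol]
    | cons d ds => simp at hl
  | cons c cs ih =>
    cases ds with
    | nil => simp at hl
    | cons d ds =>
      have h1 := h (c, d) (by simp)
      have h2 := ih (ds := ds) (by simpa using hl) (fun p hp => h p (by
        rw [List.zip_cons_cons]
        exact List.mem_cons_of_mem _ hp))
      simp only [vol, List.zipWith_cons_cons, List.map_cons, List.sum_cons] at h1 h2 ⊢
      linarith

private lemma inter_abs {cs ds : List (Cor ℝ)} (S : Cor ℝ → Cor ℝ → ℝ) (hS : ∀ c d, 0 ≤ S c d)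
    (G : Cor ℝ → Cor ℝ → ℝ) {K t : ℝ} (ht : 0 ≤ t)
    (h : ∀ p ∈ cs.zip ds, -(t * S p.1 p.2) ≤ G p.1 p.2)
    (he : ∃ p ∈ cs.zip ds, K * t ≤ G p.1 p.2) :
    K * t - t * (List.zipWith S cs ds).sum ≤ (List.zipWith G cs ds).sum := by
  have aux : ∀ cs ds : List (Cor ℝ), (∀ p ∈ cs.zip ds, -(t * S p.1 p.2) ≤ G p.1 p.2) →
      -(t * (List.zipWith S cs ds).sum) ≤ (List.zipWith G cs ds).sum := by
    intro cs
    induction cs with
    | nil => intro ds _; simp
    | cons c cs ih =>
      intro ds h
      cases ds with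
      | nil => simp
      | cons d ds =>
        have h1 := h (c, d) (by simp)
        have h2 := ih ds (fun p hp => h p (by
          rw [List.zip_cons_cons]
          exact List.mem_cons_of_mem _ hp))
        simp only [List.zipWith_cons_cons, List.sum_cons] at h1 h2 ⊢
        linarith
  induction cs generalizing ds with
  | nil => simp at he
  | cons c cs ih =>
    cases ds with
    | nil => simp at he
    | cons d ds =>
      have h1 := h (c, d) (by simp)
      have h3 : ∀ p ∈ cs.zip ds, -(t * S p.1 p.2) ≤ G p.1 p.2 := fun p hp => h p (by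
        rw [List.zip_cons_cons]
        exact List.mem_cons_of_mem _ hp)
      obtain ⟨p, hp, hp2⟩ := he
      rw [List.zip_cons_cons, List.mem_cons] at hp
      simp only [List.zipWith_cons_cons, List.sum_cons]
      have h4 := mul_nonneg ht (hS c d)
      rcases hp with rfl | hp
      · have h2 := aux cs ds h3
        simp only at hp2
        linarith
      · have h2 := ih (ds := ds) h3 ⟨p, hp, hp2⟩
        simp only at h1
        linarith

theorem max_inter {α : Type} {P : List (Item α)} {cs cs0 : List (Cor ℝ)} (h : Ang P [0, 0] cs)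
    (hmax : ∀ ds, Ang P [0, 0] ds → vol ds ≤ vol cs) (h0 : Ang P [0, 0] cs0)
    (hs : ∀ c ∈ cs0, c.Strict) : ∀ c ∈ cs, 0 < c.n ∧ 2 * c.n < Real.pi := by
  intro c hc
  by_contra hcon
  have hok := Ang_ok h
  have hok0 := Ang_ok h0
  have hlen : cs.length = cs0.length := by rw [Ang_length h, Ang_length h0]
  have hco := hok c hc
  have hcn : c.n = 0 ∨ 2 * c.n = Real.pi := by
    by_contra hcon2
    push Not at hcon2
    apply hcon
    have h1 := hco.Bn
    have h2 := hco.B0
    have h3 := hco.n2
    exact ⟨lt_of_le_of_ne (by linarith) hcon2.1.symm, lt_of_le_of_ne h3 hcon2.2⟩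
  obtain ⟨i, hi, hci⟩ := List.getElem_of_mem hc
  have hi0 : i < cs0.length := by rwa [← hlen]
  have hmem : (c, cs0[i]) ∈ cs.zip cs0 := by
    rw [List.mem_iff_getElem]
    refine ⟨i, by rw [List.length_zip]; omega, ?_⟩
    rw [List.getElem_zip, hci]
  have hd := hs cs0[i] (List.getElem_mem hi0)
  have hdo := hok0 cs0[i] (List.getElem_mem hi0)
  obtain ⟨t0, ht0, hgain⟩ := Cor.vol_gain hco hdo hcn
    hd.n0 hd.n2
    (1 + (List.zipWith (fun c d : Cor ℝ => |d.vol - c.vol|) cs cs0).sum)
  obtain ⟨t, ht, htt, ht1⟩ : ∃ t : ℝ, 0 < t ∧ t < t0 ∧ t ≤ 1 :=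
    ⟨min (t0 / 2) 1, lt_min (by linarith) one_pos, by
      have := min_le_left (t0 / 2) 1
      linarith, min_le_right _ _⟩
  have hA := Ang_mix h h0 rfl ht.le ht1
  have e0 : List.zipWith (fun x y : ℝ => (1 - t) * x + t * y) [0, 0] [0, 0] = [0, 0] := by
    simp
  rw [e0] at hA
  have h1 := hmax _ hA
  have h2 := inter_sum hlen (Cor.mix t) (fun c d => (Cor.mix t c d).vol - c.vol)
    (fun p _ => by simp)
  have h3 := inter_abs (cs := cs) (ds := cs0) (fun c d : Cor ℝ => |d.vol - c.vol|)
    (fun c d => abs_nonneg _) (fun c d => (Cor.mix t c d).vol - c.vol)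
    (K := 1 + (List.zipWith (fun c d : Cor ℝ => |d.vol - c.vol|) cs cs0).sum) ht.le
    (by
      intro p hp
      have h4 := List.of_mem_zip hp
      have h5 := Cor.vol_concave (hok _ h4.1) (hok0 _ h4.2) ht.le ht1
      have h6 : -|p.2.vol - p.1.vol| ≤ p.2.vol - p.1.vol := neg_abs_le _
      have h7 := mul_le_mul_of_nonneg_left h6 ht.le
      linarith)
    ⟨_, hmem, by
      have h4 := hgain t ht htt
      linarith⟩
  nlinarith

/-- other angle assignments have smaller volume -/
theorem max_gap {α : Type} {P : List (Item α)} {cs ds : List (Cor ℝ)} (h : Ang P [0, 0] cs)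
    (hmax : ∀ ds, Ang P [0, 0] ds → vol ds ≤ vol cs) (h' : Ang P [0, 0] ds) :
    vol ds + (List.zipWith (fun c d : Cor ℝ => (c.n - d.n) ^ 2 / 2) cs ds).sum ≤ vol cs := by
  have hok := Ang_ok h
  have hok' := Ang_ok h'
  have hlen : cs.length = ds.length := by rw [Ang_length h, Ang_length h']
  have hA := Ang_mix h h' rfl (t := 1 / 2) (by norm_num) (by norm_num)
  have e0 : List.zipWith (fun x y : ℝ => (1 - 1 / 2) * x + 1 / 2 * y) [0, 0] [0, 0] = [0, 0] := by
    simp
  rw [e0] at hA
  have h1 := hmax _ hA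
  have h2 := inter_sum hlen (Cor.mix (1 / 2))
    (fun c d => (d.vol - c.vol) / 2 + (c.n - d.n) ^ 2 / 4)
    (fun p hp => by
      have h4 := List.of_mem_zip hp
      have h5 := Cor.vol_mix (hok _ h4.1) (hok' _ h4.2)
      linarith)
  have h3 : ∀ cs ds : List (Cor ℝ), cs.length = ds.length →
      (List.zipWith (fun c d : Cor ℝ => (d.vol - c.vol) / 2 + (c.n - d.n) ^ 2 / 4) cs ds).sum =
      (vol ds - vol cs) / 2 +
        (List.zipWith (fun c d : Cor ℝ => (c.n - d.n) ^ 2 / 2) cs ds).sum / 2 := by
    intro cs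
    induction cs with
    | nil =>
      intro ds hl
      cases ds with
      | nil => simp [vol]
      | cons d ds => simp at hl
    | cons c cs ih =>
      intro ds hl
      cases ds with
      | nil => simp at hl
      | cons d ds =>
        have := ih ds (by simpa using hl)
        simp only [vol, List.zipWith_cons_cons, List.map_cons, List.sum_cons] at this ⊢
        linarith
  rw [h3 cs ds hlen] at h2
  linarith

end Pool.Agent.Helper9.FA
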