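import Pool.Agent.Helper64.FA.ASSEM
import Pool.Agent.Helper1.FA.Smul
import Pool.Agent.Helper77.FA.SPECB
import Pool.Agent.Helper81.FA.CHEB
import Pool.Agent.Helper97.FA.CIRC

/-!
# VALUE: the Kashaev invariant of a fully augmented link
-/

namespace Pool.Agent.Helper9.FA

open Finset Pool.Agent.Helper9.Kashaev Pool.Agent.Helper9.TG

private lemma value_congr {α : Type} (p : ℕ) {F G : α → Ker ℂ}
    (h : ∀ a, ∀ n ≤ p, ∀ b c d e, F a n b c d e = G a n b c d e) :
    ∀ (P : List (Item α)) (g : List ℕ → ℂ) (w : List ℕ),
      TrP p P ((labels P).map F) g w = TrP p P ((labels P).map G) g w := by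
  intro P
  induction P with
  | nil => intro g w; rfl
  | cons i P ih =>
    intro g w
    cases i with
    | cup k => exact ih _ _
    | cap k => exact ih _ _
    | box k a =>
      show TrP p P ((labels P).map F) (lft (boxT p (F a)) k g) w =
        TrP p P ((labels P).map G) (lft (boxT p (G a)) k g) w
      have e : boxT p (F a) = boxT p (G a) := by
        funext g w
        rcases w with _ | ⟨x, _ | ⟨t, _ | ⟨y, r⟩⟩⟩
        · rfl
        · rfl
        · rfl
        · simp only [boxT]
          split_ifs
          · refine Finset.sum_congr rfl fun n hn => Finset.sum_congr rfl fun uL _ =>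
              Finset.sum_congr rfl fun uR _ => ?_
            rw [Finset.mem_range] at hn
            rw [h a n (by omega)]
          · rfl
      rw [e]
      exact ih _ _

private lemma value_zip {α : Type} (c : α → ℂ) (F : α → Ker ℂ) (l : List α) :
    l.map (fun a n x y z t => c a * F a n x y z t) =
      List.zipWith (fun (x : ℂ) (κ : Ker ℂ) n a b c d => x * κ n a b c d) (l.map c) (l.map F) := by
  induction l with
  | nil => rfl
  | cons a l ih =>
    rw [List.map_cons, List.map_cons, List.map_cons, List.zipWith_cons_cons, ih]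

private lemma value_diagram (P : List (Item ℤ)) :
    P.flatMap (Item.diagram fun k a => sh k (twists 0 a ++ circle 0)) = falLink P := by
  unfold falLink
  congr 1
  funext i
  cases i with
  | cup k => rfl
  | cap k => rfl
  | box k a =>
    simp only [Item.diagram]
    simp [sh, twists, circle, Nat.add_comm]

private lemma value_wf (a : ℤ) : wf 2 (twists 0 a ++ circle 0) 2 := by
  apply wf_append (m := 2)
  · unfold twists
    apply h96_wf_replicate (by omega)
    split_ifs
    · exact Or.inl rfl
    · exact Or.inr rfl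
  · simp [circle, wf]

private lemma value_SC (N : ℕ) (f : List ℕ → ℂ) :
    ∀ n, SC N n f = Spec77.SC77 N n f := by
  intro n
  induction n using Nat.strong_induction_on with
  | _ n ih =>
    match n with
    | 0 => rfl
    | 1 => rfl
    | m + 2 =>
      funext u
      simp only [SC, Spec77.SC77]
      rw [ih (m + 1) (by omega), ih m (by omega)]

private lemma value_coef {N : ℕ} (hN : 2 ≤ N) (a : ℤ) : ∃ φ : ℂ, ‖φ‖ = 1 ∧
    Coef N (twists 0 a ++ circle 0) (fun m => φ * N * GG N a (N - 1 - m)) := by
  apply Spec77.coef_fal_of hN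
  intro f hf a b ha hb
  rw [circle_EF hN hf ha hb, EF_cheb hN hf ha hb, value_SC]

theorem fal_value {N : ℕ} (hN : 2 ≤ N) (P : List (Item ℤ)) (hP : wfP 1 P 1) : ∃ z : ℂ,
    IsKashaev N (falLink P) z ∧
    ‖z‖ = (N : ℝ) ^ (labels P).length *
      ‖TrP (N - 1) P ((labels P).map fun a => kpa N a) del0 [0, 0]‖ := by
  choose φ hφ1 hφ2 using value_coef hN
  obtain ⟨hval, hsup⟩ := state_sum hN (fun a : ℤ => twists 0 a ++ circle 0) value_wf
    (fun a m => φ a * N * GG N a (N - 1 - m)) hφ2 P hP
  rw [value_diagram] at hval hsup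
  refine ⟨_, isKashaev_of_Sup hN _ hsup, ?_⟩
  rw [hval]
  have h1 := value_congr (N - 1)
    (F := fun a : ℤ => kerW N (fun m => φ a * N * GG N a (N - 1 - m)))
    (G := fun (a : ℤ) n x y z t => φ a * N * kpa N a n x y z t) (by
      intro a n hn b c d e
      unfold kerW kpa
      simp only
      rw [show N - 1 - (N - 1 - n) = n by omega]
      ring) P del0 [0, 0]
  rw [h1, value_zip (fun a : ℤ => φ a * N) (fun a : ℤ => kpa N a),
    TrP_smul (N - 1) P _ (by simp) _ (by simp), norm_mul]
  congr 1
  have h2 : ∀ l : List ℤ, ‖(l.map fun a : ℤ => φ a * (N : ℂ)).prod‖ = (N : ℝ) ^ l.length := by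
    intro l
    induction l with
    | nil => simp
    | cons a l ih =>
      rw [List.map_cons, List.prod_cons, norm_mul, ih, norm_mul, hφ1, one_mul,
        Complex.norm_natCast, List.length_cons, pow_succ]
      ring
  exact h2 _

end Pool.Agent.Helper9.FA
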